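import Pool.Agent.H27.CAL.Stmts2

/-!
# Project CAL, module BNULL: bounded block sequences are weakly null
-/

open scoped BigOperators ENNReal Topology
open Filter

namespace CAL

theorem cal_bnull {𝕜 : Type*} [RCLike 𝕜] {A : Type*} [PartialOrder A] {Y : Type*}
    [NormedAddCommGroup Y] [NormedSpace 𝕜 Y] {τ : TreeLev A} (D : Dat 𝕜 Y τ)
    (h1 : CRITStmt D 𝕜) (h2 : RNULLStmt D) (h3 : TAILSStmt D 𝕜) : BNULLStmt D := by
  intro Ch F w R
  have key : ∀ (f : D.X →L[𝕜] 𝕜) x s t, D.Block x s t →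
      Tendsto (fun k => f (x k)) atTop (𝓝 0) := by
    intro f x s t hx
    exact h1 (fun _ => f) ‖f‖ (fun _ x => f.le_opNorm x)
      (fun x hx φ _ => h2 F w R f x hx) x s t hx
  refine ⟨key, fun f e he => ?_⟩
  obtain ⟨N, hN⟩ := h3 (fun _ => f) ‖f‖ (fun _ x => f.le_opNorm x)
    (fun x s t hx φ _ => key f x s t hx) e he
  exact ⟨N, fun n hn x => hN n hn N le_rfl x⟩

end CAL
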