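import Pool.Agent.H27.CAL.Stmts2

/-!
# Project CAL, module CHAIN: chains of a well-founded tree
-/

open scoped BigOperators ENNReal Topology
open Filter

namespace CAL

theorem chain_hered {A : Type*} [PartialOrder A] (τ : TreeLev A) : Hered τ.Chain := by
  intro G G' hsub hG
  rcases hG with h | ⟨a, ha⟩
  · left
    rw [h] at hsub
    exact Finset.subset_empty.1 hsub
  · right
    refine ⟨a, fun t ht => ?_⟩
    obtain ⟨b, h1, h2, h3⟩ := ha t (hsub ht)
    exact ⟨b, h1, h2, fun t' ht' hlt => h3 t' (hsub ht') hlt⟩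

theorem chain_wfam {A : Type*} [PartialOrder A] (τ : TreeLev A) : WFam τ.Chain := by
  intro t ht
  by_contra hcon
  push Not at hcon
  -- for all n a chain
  have key : ∀ n : ℕ, ∃ (a : A) (b : ℕ → A), ∀ i ≤ n, b i ≤ a ∧ τ.lev (b i) ≤ t i ∧
      ∀ i' < i, t i' < τ.lev (b i) := by
    intro n
    rcases hcon (n + 1) with h | ⟨a, ha⟩
    · exfalso
      have h0 : t 0 ∈ (Finset.range (n + 1)).image t :=
        Finset.mem_image.2 ⟨0, Finset.mem_range.2 (Nat.succ_pos n), rfl⟩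
      rw [h] at h0
      exact absurd h0 (Finset.notMem_empty _)
    · have h1 : ∀ i : ℕ, ∃ b : A, i ≤ n → b ≤ a ∧ τ.lev b ≤ t i ∧ ∀ i' < i, t i' < τ.lev b := by
        intro i
        by_cases hi : i ≤ n
        · obtain ⟨b, g1, g2, g3⟩ := ha (t i)
            (Finset.mem_image.2 ⟨i, Finset.mem_range.2 (by omega), rfl⟩)
          refine ⟨b, fun _ => ⟨g1, g2, fun i' hi' => ?_⟩⟩
          exact g3 (t i') (Finset.mem_image.2 ⟨i', Finset.mem_range.2 (by omega), rfl⟩) (ht hi')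
        · exact ⟨a, fun h => absurd h hi⟩
      choose b hb using h1
      exact ⟨a, b, hb⟩
  choose a b hab using key
  let U : Ultrafilter ℕ := hyperfilter ℕ
  have hcof : ∀ N : ℕ, {n | N ≤ n} ∈ U := by
    intro N
    apply (hyperfilter_le_cofinite (α := ℕ))
    rw [Nat.cofinite_eq_atTop]
    exact mem_atTop N
  have hlim : ∀ i : ℕ, ∃ c : A, {n | b n i = c} ∈ U := by
    intro i
    have hfin := τ.fin (t i)
    have hmem : (⋃ c ∈ {c : A | τ.lev c ≤ t i}, {n | b n i = c}) ∈ U := by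
      refine mem_of_superset (hcof i) (fun n hn => ?_)
      simp only [Set.mem_iUnion, Set.mem_ofPred_eq]
      exact ⟨b n i, (hab n i hn).2.1, rfl⟩
    obtain ⟨c, -, hc⟩ := (Ultrafilter.finite_biUnion_mem_iff hfin).1 hmem
    exact ⟨c, hc⟩
  choose c hc using hlim
  apply τ.wf c
  intro i j hij
  have hmem := inter_mem (inter_mem (hc i) (hc j)) (hcof j)
  obtain ⟨n, ⟨h1, h2⟩, h3⟩ := U.nonempty_of_mem hmem
  simp only [Set.mem_ofPred_eq] at h1 h2 h3
  obtain ⟨g1, g2, -⟩ := hab n i (hij.le.trans h3)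
  obtain ⟨k1, k2, k3⟩ := hab n j h3
  rw [h1] at g1 g2
  rw [h2] at k1 k2 k3
  have hlt : τ.lev (c i) < τ.lev (c j) := lt_of_le_of_lt g2 (k3 i hij)
  rcases τ.total _ _ _ g1 k1 with h | h
  · exact lt_of_le_of_ne h (fun he => by rw [he] at hlt; exact lt_irrefl _ hlt)
  · exact absurd (τ.lev_le h) (not_le.2 hlt)

theorem cal_chain.{u} : CHAINStmt.{u} := by
  intro A _ τ
  exact ⟨chain_hered τ, chain_wfam τ⟩

end CAL
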