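import Pool.Agent.H27.CAL.Stmts2

/-!
# Project CAL, module FAM: existence of the families attached to the weights
-/

open scoped BigOperators ENNReal Topology
open Filter

namespace CAL

/-- the families, by strong recursion on the weight -/
def famF (Ch : Finset ℕ → Prop) (j : ℕ) : Finset ℕ → Prop := fun H =>
  H = ∅ ∨ ¬∃ l, Good (WW Ch (fun i P => ∃ _ : i < j, famF Ch i P) j) (epsj j)
    (H.erase (H.sup id)) l
termination_by j

theorem fam_iff (hC : WWCStmt) (Ch : Finset ℕ → Prop) (j : ℕ) (H : Finset ℕ) :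
    famF Ch j H ↔ H = ∅ ∨ ¬∃ l, Good (WW Ch (famF Ch) j) (epsj j) (H.erase (H.sup id)) l := by
  have h1 : ∀ g, WW Ch (fun i P => ∃ _ : i < j, famF Ch i P) j g ↔ WW Ch (famF Ch) j g := by
    apply hC
    intro i hi P
    exact ⟨fun ⟨_, h⟩ => h, fun h => ⟨hi, h⟩⟩
  have h2 : WW Ch (fun i P => ∃ _ : i < j, famF Ch i P) j = WW Ch (famF Ch) j :=
    funext (fun g => propext (h1 g))
  rw [famF, h2]

theorem fam_good_mono {W : (ℕ → ℝ) → Prop} {e : ℝ} {H H' : Finset ℕ} {l : ℕ → ℝ} (hs : H ⊆ H')
    (h : Good W e H l) : Good W e H' l := by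
  obtain ⟨h1, h2, h3, h4⟩ := h
  refine ⟨h1, fun t ht => h2 t (fun h => ht (hs h)), ?_, fun g hg => ?_⟩
  · rw [← Finset.sum_subset hs (fun x _ hx => h2 x hx)]
    exact h3
  · rw [← Finset.sum_subset hs (fun x _ hx => by rw [h2 x hx, zero_mul])]
    exact h4 g hg

theorem fam_init (hC : WWCStmt) (Ch : Finset ℕ → Prop) (j : ℕ) (H : Finset ℕ) (n : ℕ)
    (h : famF Ch j H) : famF Ch j (H.filter (· < n)) := by
  rw [fam_iff hC] at h ⊢
  by_cases hE : H.filter (· < n) = ∅
  · exact Or.inl hE
  · right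
    have hne : (H.filter (· < n)).Nonempty := Finset.nonempty_iff_ne_empty.2 hE
    rcases h with h | h
    · exfalso
      rw [h] at hE
      exact hE (Finset.filter_empty _)
    · rintro ⟨l, hl⟩
      apply h
      refine ⟨l, fam_good_mono ?_ hl⟩
      intro x hx
      rw [Finset.mem_erase] at hx ⊢
      obtain ⟨hx1, hx2⟩ := hx
      have hxH := (Finset.mem_filter.1 hx2).1
      refine ⟨fun he => ?_, hxH⟩
      apply hx1
      apply le_antisymm
      · exact Finset.le_sup (f := id) hx2
      · rw [he]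
        exact Finset.sup_mono (Finset.filter_subset _ _)

theorem fam_ext (hC : WWCStmt) (Ch : Finset ℕ → Prop) (j : ℕ) (H : Finset ℕ) :
    (∃ l, Good (WW Ch (famF Ch) j) (epsj j) H l) ∨
      ∀ n, (∀ h ∈ H, h < n) → famF Ch j (insert n H) := by
  by_cases h : ∃ l, Good (WW Ch (famF Ch) j) (epsj j) H l
  · exact Or.inl h
  · right
    intro n hn
    rw [fam_iff hC]
    right
    have hsup : (insert n H).sup id = n := by
      rw [Finset.sup_insert]
      apply sup_eq_left.2
      exact Finset.sup_le (fun x hx => (hn x hx).le)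
    have hnot : n ∉ H := fun hx => lt_irrefl _ (hn n hx)
    rw [hsup, Finset.erase_insert hnot]
    exact h

theorem fam_epsj_pos (j : ℕ) : 0 < epsj j := by
  unfold epsj
  exact pow_pos (mm_inv_pos j) 3

theorem fam_wf (hP : PTAKFStmt) (hB : WWBStmt) (hC : WWCStmt) (hF : WWFStmt)
    (Ch : Finset ℕ → Prop) (h1 : Hered Ch) (h2 : WFam Ch) : ∀ j, WFam (famF Ch j) := by
  intro j
  induction j using Nat.strong_induction_on with
  | _ j ih =>
    intro t ht
    obtain ⟨n, l, hl⟩ := hP (WW Ch (famF Ch) j) (hB Ch (famF Ch) j)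
      (hF Ch (famF Ch) j h1 h2 (fun i hi => ⟨fun H n hH => fam_init hC Ch i H n hH, ih i hi⟩))
      (epsj j) (fam_epsj_pos j) t ht
    refine ⟨n + 1, fun hcon => ?_⟩
    rw [fam_iff hC] at hcon
    have hmem : ∀ x ∈ (Finset.range n).image t, x < t n := by
      intro x hx
      obtain ⟨i, hi, rfl⟩ := Finset.mem_image.1 hx
      exact ht (Finset.mem_range.1 hi)
    have him : (Finset.range (n + 1)).image t = insert (t n) ((Finset.range n).image t) := by
      rw [Finset.range_add_one, Finset.image_insert]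
    have hsup : ((Finset.range (n + 1)).image t).sup id = t n := by
      rw [him, Finset.sup_insert]
      apply sup_eq_left.2
      exact Finset.sup_le (fun x hx => (hmem x hx).le)
    have hnot : t n ∉ (Finset.range n).image t := fun hx => lt_irrefl _ (hmem _ hx)
    rcases hcon with h | h
    · rw [him] at h
      exact absurd h (Finset.insert_ne_empty _ _)
    · apply h
      rw [hsup, him, Finset.erase_insert hnot]
      exact ⟨l, hl⟩

theorem cal_fam (hP : PTAKFStmt) (hB : WWBStmt) (hC : WWCStmt) (hF : WWFStmt) : FAMStmt := by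
  intro Ch h1 h2
  exact ⟨⟨famF Ch, fam_init hC Ch, fam_wf hP hB hC hF Ch h1 h2, fam_ext hC Ch⟩⟩

end CAL
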