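import Pool.Agent.H27.CAL.Stmts2

/-!
# Project CAL, module GOODEX: good convex means exist on initial segments
-/

open scoped BigOperators ENNReal Topology
open Filter

namespace CAL

theorem cal_goodex : GOODEXStmt := by
  intro Ch F j t ht
  classical
  have hlt : ∀ n, ∀ x ∈ (Finset.range n).image t, x < t n := by
    intro n x hx
    obtain ⟨i, hi, rfl⟩ := Finset.mem_image.1 hx
    exact ht (Finset.mem_range.1 hi)
  have him : ∀ n, (Finset.range (n + 1)).image t = insert (t n) ((Finset.range n).image t) := by
    intro n
    rw [Finset.range_add_one, Finset.image_insert]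
  have hex : ∃ n, ∃ l, Good (WW Ch F.Fam j) (epsj j) ((Finset.range n).image t) l := by
    by_contra hcon
    push Not at hcon
    obtain ⟨n, hn⟩ := F.wf j t ht
    apply hn
    have hstep : ∀ m, F.Fam j ((Finset.range (m + 1)).image t) := by
      intro m
      rcases F.ext j ((Finset.range m).image t) with ⟨l, hl⟩ | h
      · exact absurd hl (hcon m l)
      · rw [him m]
        exact h _ (hlt m)
    rcases n with _ | m
    · have h := F.init j _ (t 0) (hstep 0)
      have he : ((Finset.range (0 + 1)).image t).filter (· < t 0) = (Finset.range 0).image t := by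
        rw [him 0, Finset.filter_insert]
        simp
      rw [he] at h
      exact h
    · exact hstep m
  obtain ⟨n, ⟨l, hl⟩, hmin⟩ : ∃ n, (∃ l, Good (WW Ch F.Fam j) (epsj j)
      ((Finset.range n).image t) l) ∧ ∀ m < n, ¬ ∃ l, Good (WW Ch F.Fam j) (epsj j)
      ((Finset.range m).image t) l :=
    ⟨Nat.find hex, Nat.find_spec hex, fun m hm => Nat.find_min hex hm⟩
  refine ⟨n, l, hl, ?_⟩
  rcases hm : n with _ | m
  · exfalso
    rw [hm] at hl
    have := hl.2.2.1
    simp at this
  · rcases F.ext j ((Finset.range m).image t) with h | h
    · exact absurd h (hmin m (by omega))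
    · rw [him m]
      exact h _ (hlt m)

end CAL
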