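import Pool.Agent.H27.CAL.Stmts2

/-!
# Project CAL, module RICHEX: existence of rich data
-/

open scoped BigOperators ENNReal Topology
open Filter

namespace CAL

theorem cal_richex {𝕜 : Type*} [RCLike 𝕜] {A : Type*} [PartialOrder A] (τ : TreeLev A)
    (Y : Type*) [NormedAddCommGroup Y] [NormedSpace 𝕜 Y]
    (hB : BUILDStmt (𝕜 := 𝕜) τ Y) (hP : ∀ E : Pre 𝕜 Y τ, PEXStmt E) :
    RICHEXStmt (𝕜 := 𝕜) τ Y := by
  intro hs Ch F w hch
  obtain ⟨E, ⟨R⟩⟩ := hB hs F w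
  obtain ⟨D, h1, h2, h3, h4, h5⟩ := hP E
  obtain ⟨lev, wt, pred, b, Lv, g1, g2, g3, g4, g5, g6, g7, g8, g9, g10⟩ := E
  simp only at h1 h2 h3 h4 h5
  subst h1 h2 h3 h4 h5
  exact ⟨D, ⟨{ sg := R.sg, th := R.th, sg_inj := R.sg_inj, sg_mem := R.sg_mem, sg_lt := R.sg_lt,
               chain_le := hch, wt_mem := R.wt_mem, adm := R.adm, odd_b := R.odd_b,
               odd_none := R.odd_none, odd_some := R.odd_some, even_rich := R.even_rich,
               odd_rich := R.odd_rich }⟩⟩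

end CAL
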